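import Mathlib

/-!
# Retractional skeletons without a common subskeleton
-/

set_option autoImplicit false

open Set Topology Filter

namespace Pool.Agent.Results.MP_fb95e7_gt.NoCommon

universe u

/-- every increasing sequence has a supremum -/
def SigmaComplete (ι : Type u) [PartialOrder ι] : Prop :=
  ∀ f : ℕ → ι, Monotone f → ∃ t, IsLUB (range f) t

/-- a retractional skeleton on `K` -/
structure Skel (K : Type u) [TopologicalSpace K] where
  /-- the index set -/
  ι : Type u
  /-- its order -/
  [po : PartialOrder ι]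
  /-- the retractions -/
  r : ι → K → K
  nonempty : Nonempty ι
  directed : ∀ s t : ι, ∃ w, s ≤ w ∧ t ≤ w
  complete : SigmaComplete ι
  cont : ∀ s, Continuous (r s)
  idem : ∀ s x, r s (r s x) = r s x
  metr : ∀ s, TopologicalSpace.MetrizableSpace (range (r s))
  comm : ∀ s t, s ≤ t → r s = r s ∘ r t ∧ r s = r t ∘ r s
  sup : ∀ f : ℕ → ι, StrictMono f → ∀ t, IsLUB (range f) t →
    ∀ x, Tendsto (fun n => r (f n) x) atTop (𝓝 (r t x))
  lim : ∀ x, Tendsto (fun s => r s x) atTop (𝓝 x)

attribute [instance] Skel.po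

/-- the set induced by a skeleton -/
def Skel.induced {K : Type u} [TopologicalSpace K] (S : Skel K) : Set K := ⋃ s, range (S.r s)

/-- `R` is, up to re-indexing, a subskeleton of `S` -/
def IsSub {K : Type u} [TopologicalSpace K] (R S : Skel K) : Prop :=
  ∃ (Γ' : Set S.ι) (φ : R.ι ≃o Γ'),
    (∀ s, ∃ t ∈ Γ', s ≤ t) ∧
    (∀ f : ℕ → S.ι, Monotone f → (∀ n, f n ∈ Γ') → ∀ t, IsLUB (range f) t → t ∈ Γ') ∧
    ∀ i, R.r i = S.r (φ i)

variable {K : Type u} [TopologicalSpace K]

/-- monotone sequences which are not eventually constant have strictly increasing subsequences -/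
lemma exists_strict {ι : Type*} [PartialOrder ι] {g : ℕ → ι} (hg : Monotone g)
    (h : ∀ N, ∃ n ≥ N, g n ≠ g N) : ∃ φ : ℕ → ℕ, StrictMono φ ∧ StrictMono (g ∘ φ) := by
  have h' : ∀ N, ∃ n > N, g N < g n := by
    intro N
    obtain ⟨n, hn, hne⟩ := h N
    have hlt : g N < g n := lt_of_le_of_ne (hg hn) (Ne.symm hne)
    refine ⟨n, lt_of_le_of_ne hn ?_, hlt⟩
    rintro rfl
    exact lt_irrefl _ hlt
  choose k hk1 hk2 using h'
  refine ⟨fun n => k^[n] 0, strictMono_nat_of_lt_succ fun n => ?_,
    strictMono_nat_of_lt_succ fun n => ?_⟩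
  · rw [Function.iterate_succ_apply']
    exact hk1 _
  · simp only [Function.comp]
    rw [Function.iterate_succ_apply']
    exact hk2 _

/-- limits along increasing sequences -/
lemma Skel.sup_mono (S : Skel K) {f : ℕ → S.ι} (hf : Monotone f) {t : S.ι}
    (ht : IsLUB (range f) t) (x : K) : Tendsto (fun n => S.r (f n) x) atTop (𝓝 (S.r t x)) := by
  by_cases hc : ∃ N, ∀ n ≥ N, f n = f N
  · obtain ⟨N, hN⟩ := hc
    have h1 : t = f N := by
      apply le_antisymm
      · apply ht.2
        rintro _ ⟨n, rfl⟩
        rcases le_total n N with h | h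
        · exact hf h
        · exact (hN n h).le
      · exact ht.1 ⟨N, rfl⟩
    rw [h1]
    apply tendsto_const_nhds.congr'
    filter_upwards [eventually_ge_atTop N] with n hn
    rw [hN n hn]
  · push Not at hc
    by_contra hcon
    rw [tendsto_def] at hcon
    push Not at hcon
    obtain ⟨U, hU, hUf⟩ := hcon
    obtain ⟨φ, hφ, hφU⟩ := extraction_of_frequently_atTop (P := fun n => S.r (f n) x ∉ U)
      (by
        intro h
        apply hUf
        filter_upwards [h] with n hn
        simpa using hn)
    have hg : Monotone (f ∘ φ) := hf.comp hφ.monotone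
    have hgne : ∀ N, ∃ n ≥ N, (f ∘ φ) n ≠ (f ∘ φ) N := by
      intro N
      obtain ⟨n, hn, hne⟩ := hc (φ N)
      refine ⟨max n N, le_max_right _ _, ?_⟩
      intro h
      apply hne
      apply le_antisymm
      · calc f n ≤ f (φ (max n N)) := hf ((hφ.id_le n).trans (hφ.monotone (le_max_left _ _)))
          _ = f (φ N) := h
      · exact hf hn
    obtain ⟨ψ, hψ, hgψ⟩ := exists_strict hg hgne
    have hlub : IsLUB (range (f ∘ φ ∘ ψ)) t := by
      constructor
      · rintro _ ⟨n, rfl⟩
        exact ht.1 ⟨_, rfl⟩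
      · intro b hb
        apply ht.2
        rintro _ ⟨n, rfl⟩
        exact (hf ((hφ.comp hψ).id_le n)).trans (hb ⟨n, rfl⟩)
    have h2 := S.sup (f ∘ φ ∘ ψ) hgψ t hlub x
    obtain ⟨n, hn⟩ := (h2.eventually hU).exists
    exact hφU (ψ n) hn

/-- countable subsets -/
abbrev Ctb (T : Type u) : Type u := {A : Set T // A.Countable}

/-- blowing up the index set of a skeleton -/
def blow (S : Skel K) (T : Type u) : Skel K where
  ι := S.ι × Ctb T
  r p := S.r p.1
  nonempty := ⟨(S.nonempty.some, ⟨∅, countable_empty⟩)⟩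
  directed := by
    rintro ⟨s, A⟩ ⟨t, B⟩
    obtain ⟨w, h1, h2⟩ := S.directed s t
    exact ⟨(w, ⟨A.1 ∪ B.1, A.2.union B.2⟩), ⟨h1, subset_union_left⟩, ⟨h2, subset_union_right⟩⟩
  complete := by
    intro f hf
    obtain ⟨t, ht⟩ := S.complete (fun n => (f n).1) fun m n h => (hf h).1
    refine ⟨(t, ⟨⋃ n, (f n).2.1, countable_iUnion fun n => (f n).2.2⟩), ?_, ?_⟩
    · rintro _ ⟨n, rfl⟩
      exact ⟨ht.1 ⟨n, rfl⟩, subset_iUnion (fun n => (f n).2.1) n⟩
    · rintro ⟨b, B⟩ hb
      refine ⟨ht.2 ?_, iUnion_subset fun n => (hb ⟨n, rfl⟩).2⟩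
      rintro _ ⟨n, rfl⟩
      exact (hb ⟨n, rfl⟩).1
  cont p := S.cont p.1
  idem p := S.idem p.1
  metr p := S.metr p.1
  comm := by
    rintro ⟨p, A⟩ ⟨q, B⟩ h
    exact S.comm p q h.1
  sup := by
    rintro f hf ⟨t, A⟩ ht x
    apply S.sup_mono (f := fun n => (f n).1) fun m n h => (hf.monotone h).1
    constructor
    · rintro _ ⟨n, rfl⟩
      exact (ht.1 ⟨n, rfl⟩).1
    · intro b hb
      have h1 : (t, A) ≤ (b, A) := ht.2 (by
        rintro _ ⟨n, rfl⟩
        exact ⟨hb ⟨n, rfl⟩, (ht.1 ⟨n, rfl⟩).2⟩)
      exact h1.1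
  lim x := by
    haveI := S.nonempty
    rw [← prod_atTop_atTop_eq]
    exact (S.lim x).comp tendsto_fst

lemma blow_induced (S : Skel K) (T : Type u) : (blow S T).induced = S.induced := by
  apply subset_antisymm
  · refine iUnion_subset ?_
    rintro ⟨s, A⟩
    exact subset_iUnion (fun s => range (S.r s)) s
  · exact iUnion_subset fun s => subset_iUnion (fun p : (blow S T).ι => range ((blow S T).r p))
      (s, (⟨∅, countable_empty⟩ : Ctb T))

/-- no skeleton is a subskeleton of both `S` and its blow-up -/
lemma no_common (S R : Skel K) (h1 : IsSub R S) (h2 : IsSub R (blow S (Set (S.ι × ℕ)))) : False := by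
  classical
  obtain ⟨Γ1, φ1, -, -, -⟩ := h1
  obtain ⟨Γ2, φ2, hcof, -, -⟩ := h2
  -- an enumeration of the countable sets
  have henum : ∀ A : Ctb (Set (S.ι × ℕ)), ∃ e : ℕ → Set (S.ι × ℕ), A.1 ⊆ range e := by
    rintro ⟨A, hA⟩
    rcases A.eq_empty_or_nonempty with rfl | hne
    · exact ⟨fun _ => ∅, empty_subset _⟩
    · obtain ⟨e, he⟩ := hA.exists_eq_range hne
      exact ⟨e, he.le⟩
  choose e he using henum
  let F : S.ι × ℕ → Set (S.ι × ℕ) := fun p =>
    if h : p.1 ∈ Γ1 then e (φ2 (φ1.symm ⟨p.1, h⟩)).1.2 p.2 else ∅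
  apply Function.cantor_surjective F
  intro T
  obtain ⟨t, ht, hle⟩ := hcof (S.nonempty.some, ⟨{T}, countable_singleton T⟩)
  have hT : T ∈ t.2.1 := hle.2 rfl
  obtain ⟨n, hn⟩ := he t.2 hT
  refine ⟨((φ1 (φ2.symm ⟨t, ht⟩)).1, n), ?_⟩
  simp only [F, dif_pos (φ1 (φ2.symm ⟨t, ht⟩)).2]
  have h3 : (⟨(φ1 (φ2.symm ⟨t, ht⟩)).1, (φ1 (φ2.symm ⟨t, ht⟩)).2⟩ : Γ1) = φ1 (φ2.symm ⟨t, ht⟩) := rfl
  rw [h3, OrderIso.symm_apply_apply, OrderIso.apply_symm_apply]
  exact hn

/-- the standard skeleton of a Cantor cube -/
noncomputable def cube (T : Type u) : Skel (T → Bool) := by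
  classical
  exact {
    ι := Ctb T
    r := fun A x i => if i ∈ A.1 then x i else false
    nonempty := ⟨⟨∅, countable_empty⟩⟩
    directed := fun A B => ⟨⟨A.1 ∪ B.1, A.2.union B.2⟩, subset_union_left, subset_union_right⟩
    complete := fun f _ => ⟨⟨⋃ n, (f n).1, countable_iUnion fun n => (f n).2⟩, by
      constructor
      · rintro _ ⟨n, rfl⟩
        exact subset_iUnion (fun n => (f n).1) n
      · intro B hB
        exact iUnion_subset fun n => hB ⟨n, rfl⟩⟩
    cont := fun A => by
      refine continuous_pi fun i => ?_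
      by_cases h : i ∈ A.1
      · simp only [if_pos h]
        exact continuous_apply i
      · simp only [if_neg h]
        exact continuous_const
    idem := fun A x => by
      ext i
      by_cases h : i ∈ A.1 <;> simp [h]
    metr := fun A => by
      haveI : Countable A.1 := A.2
      have hemb : IsEmbedding (fun (y : range fun (x : T → Bool) (i : T) =>
          if i ∈ A.1 then x i else false) (i : A.1) => y.1 i.1) := by
        have hcomp : CompactSpace (range fun (x : T → Bool) (i : T) =>
            if i ∈ A.1 then x i else false) := by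
          rw [← isCompact_iff_compactSpace]
          apply isCompact_range
          refine continuous_pi fun i => ?_
          by_cases h : i ∈ A.1
          · simp only [if_pos h]
            exact continuous_apply i
          · simp only [if_neg h]
            exact continuous_const
        apply IsClosedEmbedding.isEmbedding
        refine Continuous.isClosedEmbedding ?_ ?_
        · exact continuous_pi fun i => (continuous_apply i.1).comp continuous_subtype_val
        · rintro ⟨_, x, rfl⟩ ⟨_, y, rfl⟩ h
          apply Subtype.ext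
          funext i
          by_cases hi : i ∈ A.1
          · exact congrFun h ⟨i, hi⟩
          · simp [hi]
      exact hemb.metrizableSpace
    comm := fun A B h => by
      constructor
      · funext x i
        by_cases hi : i ∈ A.1
        · have := h hi
          simp [hi, this]
        · simp [hi]
      · funext x i
        by_cases hi : i ∈ A.1
        · have := h hi
          simp [hi, this]
        · simp [hi]
    sup := fun f hf t ht x => by
      rw [tendsto_pi_nhds]
      intro i
      have hu : IsLUB (range f) ⟨⋃ n, (f n).1, countable_iUnion fun n => (f n).2⟩ := by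
        constructor
        · rintro _ ⟨n, rfl⟩
          exact subset_iUnion (fun n => (f n).1) n
        · intro B hB
          exact iUnion_subset fun n => hB ⟨n, rfl⟩
      have htu := ht.unique hu
      subst htu
      by_cases hi : i ∈ ⋃ n, (f n).1
      · obtain ⟨N, hN⟩ := mem_iUnion.1 hi
        apply tendsto_const_nhds.congr'
        filter_upwards [eventually_ge_atTop N] with n hn
        rw [if_pos hi, if_pos (hf.monotone hn hN)]
      · apply tendsto_const_nhds.congr
        intro n
        rw [if_neg hi, if_neg fun h => hi (mem_iUnion.2 ⟨n, h⟩)]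
    lim := fun x => by
      rw [tendsto_pi_nhds]
      intro i
      apply tendsto_const_nhds.congr'
      filter_upwards [eventually_ge_atTop (⟨{i}, countable_singleton i⟩ : Ctb T)] with B hB
      rw [if_pos (hB rfl)] }

/-- Every retractional skeleton `S` on a compact space `K` is the first term of a sequence of
retractional skeletons on `K` which all induce the same set and which have no common
subskeleton.  In particular this happens on all Cantor cubes. -/
theorem result :
    (∀ (K : Type u) [TopologicalSpace K] [CompactSpace K] [T2Space K] (S : Skel K),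
      ∃ s : ℕ → Skel K, s 0 = S ∧ (∀ n, (s n).induced = S.induced) ∧
        ¬ ∃ R : Skel K, ∀ n, IsSub R (s n)) ∧
    ∀ T : Type u, Nonempty (Skel (T → Bool)) := by
  refine ⟨fun K _ _ _ S => ⟨fun n => match n with
    | 0 => S
    | _ + 1 => blow S (Set (S.ι × ℕ)), rfl, fun n => ?_, ?_⟩, fun T => ⟨cube T⟩⟩
  · cases n with
    | zero => rfl
    | succ n => exact blow_induced S _
  · rintro ⟨R, hR⟩
    exact no_common S R (hR 0) (hR 1)

end Pool.Agent.Results.MP_fb95e7_gt.NoCommon
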